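import Pool.Agent.E8helper74.FC.Kimura

/-!
# Finite-dimensional motives over finite fields
-/

set_option autoImplicit false
set_option linter.unusedSectionVars false

open CategoryTheory CategoryTheory.Limits CategoryTheory.Pretriangulated AlgebraicGeometry
open Pool.Agent.Y116.UV Pool.Agent.E8helper74.FQ
open scoped ZeroObject

namespace Pool.Agent.E8helper74.FC

universe v u

/-- A theory of motives as before over a finite field `k`, with the Frobenius endomorphisms. -/
structure FiniteTheory (k : Type) [Field k] (K : Type) [Field K]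
    (D : Type u) [Category.{v} D] [Preadditive D] [HasZeroObject D] [HasShift D ℤ]
    [∀ n : ℤ, (shiftFunctor D n).Additive] [Pretriangulated D] extends KimuraTheory k K D where
  /-- the Frobenius endomorphism of each motive -/
  frob : ∀ M : D, End M
  /-- it commutes with all morphisms -/
  frob_natural : ∀ {M N : D} (f : M ⟶ N), (frob M : M ⟶ M) ≫ f = f ≫ (frob N : N ⟶ N)
  /-- it commutes with the shifts -/
  frob_shift : ∀ (M : D) (m : ℤ), frob (M⟦m⟧) = (shiftFunctor D m).map (frob M : M ⟶ M)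
  /-- it is the identity on the motive of `Spec k` -/
  frob_one : frob (Mc (aff k k)) = 𝟙 _
  /-- Deligne's theorem (in part): on `H^j(X)`, `j > 0`, the Frobenius endomorphism satisfies a polynomial with
  integer coefficients which does not vanish at `1` -/
  weil : ∀ X : Sch k, SmoothProper X → ∀ j : ℤ, 0 < j → ∃ P : Polynomial ℤ, P.eval 1 ≠ 0 ∧
    (H j).map (Quiver.Hom.op (Polynomial.aeval (frob (Mc X)) P)) = 0
  /-- the scheme `Y` of constants of `X`: there are `h(X) → h(Y) → h(X)` such that the composite is the identity on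
  `H^0(X)` -/
  constants : ∀ X : Sch k, SmoothProper X → ∃ (Y : Sch k) (a : Mc X ⟶ Mc Y) (b : Mc Y ⟶ Mc X),
    SmoothProper Y ∧ DimLE 0 Y ∧ (H 0).map (a ≫ b).op = 𝟙 _
  /-- `H^m(Y, ℚ(0)) = 0` for `m < 0` and `dim Y = 0` -/
  points : ∀ Y : Sch k, SmoothProper Y → DimLE 0 Y → ∀ m : ℤ, m < 0 →
    ∀ f : Mc (aff k k) ⟶ (Mc Y)⟦m⟧, f = 0

/-- `G i` stands for `H^i(X_et, ℤ(d))` and `W i` for `H^i(X, ℚ(d))`, where `X` is smooth and proper of dimension `d`
over a finite field: the kernel and the cokernel of `G i → W i` are finite for `i < 2 d` (finiteness of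
`H^j(X_et, ℚ/ℤ(d))` for `j < 2 d`), and `G (2 d)` is finitely generated (class field theory). -/
structure WeightDim (d : ℤ) (G : ℤ → Type) [∀ i, AddCommGroup (G i)] (W : ℤ → Type v)
    [∀ i, AddCommGroup (W i)] : Prop where
  top : AddGroup.FG (G (2 * d))
  low : ∀ i : ℤ, i < 2 * d → ∃ φ : G i →+ W i, Finite φ.ker ∧ Finite (W i ⧸ φ.range)

namespace FiniteTheory

variable {k : Type} [Field k] {K : Type} [Field K]
  {D : Type u} [Category.{v} D] [Preadditive D] [HasZeroObject D] [HasShift D ℤ]
  [∀ n : ℤ, (shiftFunctor D n).Additive] [Pretriangulated D]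
  (T : FiniteTheory k K D)

/-- the rational motivic cohomology `H^i(X, ℚ(d)) = Hom(ℚ, h(X)[i - 2 d])` of a smooth and proper scheme `X` of
dimension `d` -/
abbrev Mot (X : Sch k) (d i : ℤ) : Type v := T.Mc (aff k k) ⟶ (T.Mc X)⟦i - 2 * d⟧

/-- the action of polynomials in the Frobenius endomorphism -/
theorem poly_act {M : D} {m : ℤ} (x : T.Mc (aff k k) ⟶ M⟦m⟧) (P : Polynomial ℤ) :
    x ≫ (shiftFunctor D m).map (Polynomial.aeval (T.frob M) P) = P.eval 1 • x := by
  have hx : x ≫ (shiftFunctor D m).map (T.frob M : M ⟶ M) = x := by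
    rw [← T.frob_shift]
    have h1 := T.frob_natural x
    rw [T.frob_one] at h1
    exact h1.symm.trans (Category.id_comp _)
  induction P using Polynomial.induction_on' with
  | add p q hp hq =>
    rw [map_add, Polynomial.eval_add, add_smul]
    have h1 : (shiftFunctor D m).map (Polynomial.aeval (T.frob M) p +
        Polynomial.aeval (T.frob M) q) =
        (shiftFunctor D m).map (Polynomial.aeval (T.frob M) p) +
        (shiftFunctor D m).map (Polynomial.aeval (T.frob M) q) :=
      (shiftFunctor D m).map_add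
    rw [h1, Preadditive.comp_add, hp, hq]
  | monomial n a =>
    induction n with
    | zero =>
      rw [Polynomial.eval_monomial, pow_zero, mul_one]
      have h1 : Polynomial.aeval (T.frob M) (Polynomial.monomial 0 a) =
          (a • 𝟙 M : M ⟶ M) := by
        rw [Polynomial.monomial_zero_left, Polynomial.aeval_C]
        exact Algebra.algebraMap_eq_smul_one a
      have h2 : (shiftFunctor D m).map (a • 𝟙 M : M ⟶ M) = a • 𝟙 (M⟦m⟧) := by
        rw [Functor.map_zsmul, CategoryTheory.Functor.map_id]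
      rw [h1, h2, Preadditive.comp_zsmul, Category.comp_id]
    | succ n ih =>
      have h1 : Polynomial.aeval (T.frob M) (Polynomial.monomial (n + 1) a) =
          ((T.frob M : M ⟶ M) ≫ Polynomial.aeval (T.frob M) (Polynomial.monomial n a) : M ⟶ M) := by
        rw [← Polynomial.monomial_mul_X, map_mul, Polynomial.aeval_X]
        rfl
      have h2 : (shiftFunctor D m).map
          ((T.frob M : M ⟶ M) ≫ Polynomial.aeval (T.frob M) (Polynomial.monomial n a) : M ⟶ M) =
          (shiftFunctor D m).map (T.frob M : M ⟶ M) ≫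
            (shiftFunctor D m).map (Polynomial.aeval (T.frob M) (Polynomial.monomial n a)) :=
        (shiftFunctor D m).map_comp _ _
      rw [h1, h2, ← Category.assoc, hx, ih]
      simp [Polynomial.eval_monomial]

theorem map_mul_eq (j : ℤ) {M : D} (x y : End M) : (T.H j).map (Quiver.Hom.op (x * y)) =
    (T.H j).map (Quiver.Hom.op x) ≫ (T.H j).map (Quiver.Hom.op y) :=
  (T.H j).map_comp _ _

theorem exists_poly {X : Sch k} (hX : SmoothProper X) (N : ℕ) : ∃ P : Polynomial ℤ, P.eval 1 ≠ 0 ∧
    ∀ j : ℤ, 0 < j → j ≤ N →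
      (T.H j).map (Quiver.Hom.op (Polynomial.aeval (T.frob (T.Mc X)) P)) = 0 := by
  induction N with
  | zero => exact ⟨1, by simp, fun j h1 h2 => absurd h1 (by push_cast at h2; omega)⟩
  | succ N ih =>
    obtain ⟨P, hP, hP'⟩ := ih
    obtain ⟨Q, hQ, hQ'⟩ := T.weil X hX ((N : ℤ) + 1) (by positivity)
    refine ⟨P * Q, ?_, fun j h1 h2 => ?_⟩
    · rw [Polynomial.eval_mul]
      exact mul_ne_zero hP hQ
    · rw [map_mul, T.map_mul_eq]
      by_cases h3 : j ≤ N
      · rw [hP' j h1 h3, zero_comp]
      · have h4 : j = (N : ℤ) + 1 := by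
          push_cast at h2
          omega
        subst h4
        rw [hQ', comp_zero]

/-- **Vanishing.** The groups `Hom(ℚ, h(X)[m])`, `m < 0`, are zero if `h(X)` is finite-dimensional. -/
theorem vanishing [Linear ℚ D] {X : Sch k} (hX : SmoothProper X) (hK : T.Kim (T.Mc X)) (d : ℕ)
    (hd : DimLE d X) (m : ℤ) (hm : m < 0) (x : T.Mc (aff k k) ⟶ (T.Mc X)⟦m⟧) : x = 0 := by
  obtain ⟨Y, a, b, hY, hY0, hab⟩ := T.constants X hX
  obtain ⟨P, hP1, hP2⟩ := T.exists_poly hX (2 * d)
  have hPx := T.poly_act x P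
  generalize hPF : (Polynomial.aeval (T.frob (T.Mc X)) P : End (T.Mc X)) = PF at hP2 hPx
  clear hPF
  obtain ⟨e, he⟩ : ∃ e : End (T.Mc X), e = (𝟙 _ - a ≫ b : T.Mc X ⟶ T.Mc X) := ⟨_, rfl⟩
  have hS : ∀ j : ℤ, (T.H j).map (Quiver.Hom.op (PF * e)) = 0 := by
    intro j
    by_cases h2 : j < 0 ∨ 2 * (d : ℤ) < j
    · exact (T.degrees X d hX hd j h2).eq_of_src _ _
    · rw [not_or, not_lt, not_lt] at h2
      rw [T.map_mul_eq]
      rcases h2.1.lt_or_eq with h3 | h3
      · rw [hP2 j h3 (by push_cast; exact h2.2), zero_comp]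
      · subst h3
        have := T.additive 0
        have h4 : (T.H 0).map (Quiver.Hom.op e) = 0 := by
          rw [he]
          have h5 : (T.H 0).map (Quiver.Hom.op (𝟙 _ - a ≫ b : T.Mc X ⟶ T.Mc X)) =
              (T.H 0).map (𝟙 (T.Mc X) : T.Mc X ⟶ T.Mc X).op - (T.H 0).map (a ≫ b).op := by
            rw [← Functor.map_sub, ← op_sub]
          rw [h5, hab, op_id, CategoryTheory.Functor.map_id, sub_self]
        rw [h4, comp_zero]
  obtain ⟨N, hN⟩ := T.nilpotence (T.Mc X) hK _ hS
  have hxa : x ≫ (shiftFunctor D m).map a = 0 := T.points Y hY hY0 m hm _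
  have hxe : x ≫ (shiftFunctor D m).map e = x := by
    rw [he]
    have h1 : (shiftFunctor D m).map (𝟙 _ - a ≫ b : T.Mc X ⟶ T.Mc X) =
        𝟙 _ - (shiftFunctor D m).map a ≫ (shiftFunctor D m).map b := by
      rw [Functor.map_sub, Functor.map_comp, CategoryTheory.Functor.map_id]
    rw [h1, Preadditive.comp_sub, ← Category.assoc, hxa, zero_comp, sub_zero, Category.comp_id]
  have hmul : ∀ u v : End (T.Mc X), (shiftFunctor D m).map (u * v) =
      (shiftFunctor D m).map v ≫ (shiftFunctor D m).map u := fun u v =>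
    (shiftFunctor D m).map_comp _ _
  have hxS : x ≫ (shiftFunctor D m).map (PF * e) = P.eval 1 • x := by
    rw [hmul, ← Category.assoc, hxe, hPx]
  generalize PF * e = S at hN hxS
  have hxN : ∀ n : ℕ, x ≫ (shiftFunctor D m).map (S ^ n) = (P.eval 1) ^ n • x := by
    intro n
    induction n with
    | zero =>
      rw [pow_zero, pow_zero, one_smul]
      have h1 : (shiftFunctor D m).map (1 : End (T.Mc X)) = 𝟙 _ := (shiftFunctor D m).map_id _
      rw [h1, Category.comp_id]
    | succ n ih =>
      rw [pow_succ, hmul, ← Category.assoc, hxS, Preadditive.zsmul_comp, ih, smul_smul, pow_succ']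
  have h1 := hxN N
  have h2 : (shiftFunctor D m).map (S ^ N) = 0 := by
    rw [hN]
    exact (shiftFunctor D m).map_zero _ _
  rw [h2, comp_zero, ← Int.cast_smul_eq_zsmul ℚ] at h1
  rcases smul_eq_zero.mp h1.symm with h3 | h3
  · exfalso
    exact pow_ne_zero N hP1 (by exact_mod_cast h3)
  · exact h3

/-- finite generation in the weight of the dimension -/
theorem finitelyGenerated [Linear ℚ D] {X : Sch k} (hX : SmoothProper X) (hK : T.Kim (T.Mc X))
    (d : ℕ) (hd : DimLE d X) (G : ℤ → Type) [∀ i, AddCommGroup (G i)]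
    (hG : WeightDim (d : ℤ) G (fun i => T.Mot X d i)) (i : ℤ) (hi : i ≤ 2 * (d : ℤ)) :
    AddGroup.FG (G i) := by
  rcases lt_or_eq_of_le hi with h2 | rfl
  · obtain ⟨φ, h3, -⟩ := hG.low i h2
    have h5 : Finite (G i) := by
      refine Finite.of_injective (fun x => (⟨x, T.vanishing hX hK d hd _ (by omega) _⟩ : φ.ker)) ?_
      intro x y hxy
      exact congrArg Subtype.val hxy
    exact AddGroup.fg_of_finite
  · exact hG.top

end FiniteTheory

end Pool.Agent.E8helper74.FC
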