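import Pool.Agent.E8helper74.FC.Theory

/-!
# Cutting and pasting
-/

set_option autoImplicit false
set_option linter.unusedSectionVars false

open CategoryTheory CategoryTheory.Limits CategoryTheory.Pretriangulated AlgebraicGeometry
open CategoryTheory.ObjectProperty
open Pool.Agent.Y116.UV Pool.Agent.E8helper74.FQ Pool.Agent.Z125.UN
open scoped ZeroObject

namespace Pool.Agent.E8helper74.FC

universe v u

/-- Cutting and pasting: the smallest class of schemes over `k` which contains the schemes with `G` and the affine
schemes given by systems of polynomials `f_1, ..., f_s` over finitely generated `k`-algebras `A` of dimension at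
most `c` with `Split N f` for some `N > 0` (that is, with independent exponents), and which is closed under
isomorphisms, under passing from two of `Z`, `X`, `X ∖ Z` to the third (`Z` closed in `X`), from `Spec B` to
`Spec A` if `B ⊇ A` is a finite free `A`-algebra, from `Spec B` to `Spec B^Γ` for finite groups `Γ`, and from
`Spec A` to `Spec A[t]`. -/
inductive Cut {k : Type} [Field k] (c : ℕ) (G : Sch k → Prop) : Sch k → Prop
  | known (X : Sch k) : G X → Cut c G X
  | system (A : Type) [CommRing A] [Algebra k A] [Algebra.FiniteType k A] (n s : ℕ)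
      (f : Fin s → MvPolynomial (Fin n) A) (N : ℕ) : ringKrullDim A ≤ ((c : ℕ) : WithBot ℕ∞) →
      0 < N → Split N f → Cut c G (aff k (MvPolynomial (Fin n) A ⧸ Ideal.span (Set.range f)))
  | iso (X Y : Sch k) : FT True X → Nonempty (X ≅ Y) → Cut c G X → Cut c G Y
  | total {Z X U : Sch k} (i : Z ⟶ X) (j : U ⟶ X) : FT True X → IsTriple i j → Cut c G Z → Cut c G U →
      Cut c G X
  | opened {Z X U : Sch k} (i : Z ⟶ X) (j : U ⟶ X) : FT True X → IsTriple i j → Cut c G Z → Cut c G X →
      Cut c G U
  | closed {Z X U : Sch k} (i : Z ⟶ X) (j : U ⟶ X) : FT True X → IsTriple i j → Cut c G X → Cut c G U →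
      Cut c G Z
  | cover (A B : Type) [CommRing A] [CommRing B] [Algebra k A] [Algebra k B] [Algebra A B]
      [IsScalarTower k A B] [Algebra.FiniteType k A] [Module.Free A B] [Module.Finite A B] :
      Function.Injective (algebraMap A B) → Cut c G (aff k B) → Cut c G (aff k A)
  | quotient (B : Type) [CommRing B] [Algebra k B] [Algebra.FiniteType k B] (Γ : Type) [Group Γ]
      [Finite Γ] [MulSemiringAction Γ B] [SMulCommClass Γ k B] : Cut c G (aff k B) →
      Cut c G (aff k (FixedPoints.subalgebra k B Γ))
  | line (A : Type) [CommRing A] [Algebra k A] [Algebra.FiniteType k A] :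
      Cut c G (aff k A) → Cut c G (aff k (Polynomial A))

namespace MotiveTheory

variable {k : Type} [Field k] {K : Type} [Field K]
  {D : Type u} [Category.{v} D] [Preadditive D] [HasZeroObject D] [HasShift D ℤ]
  [∀ n : ℤ, (shiftFunctor D n).Additive] [Pretriangulated D] [IsTriangulated D]
  (T : MotiveTheory k K D)

/-- the thick subcategory generated by the motives of the schemes with `P` -/
def thick (P : Sch k → Prop) : ObjectProperty D := (T.sums P).triangEnvelope

theorem thick_iso {P : Sch k → Prop} {M N : D} (e : M ≅ N) (h : T.thick P M) : T.thick P N := by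
  have : (T.sums P).triangEnvelope.IsStableUnderRetracts := inferInstance
  exact this.of_retract (Retract.ofIso e.symm) h

theorem thick_twist {P : Sch k → Prop} {M : D} (h : T.thick P M) : T.thick P (T.L.obj M) := by
  have h0 : T.L.IsTriangulated := T.triangulated
  have h1 : ((T.sums P).triangEnvelope.inverseImage T.L).IsStableUnderRetracts := by
    refine ⟨fun {X Y} r hY => ?_⟩
    have : (T.sums P).triangEnvelope.IsStableUnderRetracts := inferInstance
    exact this.of_retract (r.map T.L) hY
  have h2 : (T.sums P).triangEnvelope ≤ (T.sums P).triangEnvelope.inverseImage T.L := by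
    rw [triangEnvelope_le_iff]
    intro X hX
    exact le_triangEnvelope _ _ (T.sum_twist hX)
  exact h2 M h

section loc

variable {P : Sch k → Prop} {Z X U : Sch k} (i : Z ⟶ X) (j : U ⟶ X) (hX : FT True X)
  (ht : IsTriple i j)

include hX ht

theorem thick_total (h1 : T.thick P (T.Mc Z)) (h2 : T.thick P (T.Mc U)) : T.thick P (T.Mc X) := by
  obtain ⟨u, v, w, hT⟩ := T.localization i j hX ht
  exact ext_of_isTriangulatedClosed₂ (T.sums P).triangEnvelope _ hT h1 h2

theorem thick_opened (h1 : T.thick P (T.Mc Z)) (h2 : T.thick P (T.Mc X)) : T.thick P (T.Mc U) := by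
  obtain ⟨u, v, w, hT⟩ := T.localization i j hX ht
  exact ext_of_isTriangulatedClosed₃ (T.sums P).triangEnvelope _ hT h1 h2

theorem thick_closed (h1 : T.thick P (T.Mc X)) (h2 : T.thick P (T.Mc U)) : T.thick P (T.Mc Z) := by
  obtain ⟨u, v, w, hT⟩ := T.localization i j hX ht
  exact ext_of_isTriangulatedClosed₁ (T.sums P).triangEnvelope _ hT h1 h2

end loc

theorem thick_line {P : Sch k → Prop} (A : Type) [CommRing A] [Algebra k A] [Algebra.FiniteType k A]
    (h : T.thick P (T.Mc (aff k A))) : T.thick P (T.Mc (aff k (Polynomial A))) := by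
  obtain ⟨e⟩ := T.line A
  exact T.thick_iso e.symm (T.thick_twist h)

theorem thick_alg {P : Sch k → Prop} {A B : Type} [CommRing A] [CommRing B] [Algebra k A]
    [Algebra k B] [Algebra.FiniteType k A] (e : A ≃ₐ[k] B) (h : T.thick P (T.Mc (aff k A))) :
    T.thick P (T.Mc (aff k B)) := by
  obtain ⟨e'⟩ := T.iso (X := aff k A) (Y := aff k B) (ft_aff True) ⟨(affIso e).symm⟩
  exact T.thick_iso e' h

theorem thick_laurent {P : Sch k → Prop} (A : Type) [CommRing A] [Algebra k A]
    [Algebra.FiniteType k A] (h : T.thick P (T.Mc (aff k A))) :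
    T.thick P (T.Mc (aff k (LaurentPolynomial A))) := by
  have h3 := T.thick_line A h
  have h4 : Algebra.FiniteType k (Polynomial A) :=
    Algebra.FiniteType.trans (S := A) inferInstance inferInstance
  have h5 : T.thick P (T.Mc (aff k (Polynomial A ⧸ Ideal.span {(Polynomial.X : Polynomial A)}))) := by
    have e := (Polynomial.quotientSpanXSubCAlgEquiv (0 : A)).symm.restrictScalars k
    rw [map_zero, sub_zero] at e
    exact T.thick_alg e h
  have h6 : T.thick P (T.Mc (aff k (Localization.Away (Polynomial.X : Polynomial A)))) :=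
    T.thick_opened _ _ (ft_aff (R := k) (A := Polynomial A) True)
      (triple_away (R := k) (Polynomial.X : Polynomial A)) h5 h3
  have h7 : Algebra.FiniteType k (Localization.Away (Polynomial.X : Polynomial A)) :=
    Algebra.FiniteType.trans (S := Polynomial A) inferInstance inferInstance
  have e2 : Localization.Away (Polynomial.X : Polynomial A) ≃ₐ[Polynomial A]
      LaurentPolynomial A := IsLocalization.algEquiv (Submonoid.powers (Polynomial.X : Polynomial A)) _ _
  have hT : IsScalarTower k (Polynomial A) (LaurentPolynomial A) :=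
    IsScalarTower.of_algebraMap_eq fun x => by
      change LaurentPolynomial.C (algebraMap k A x) = Polynomial.toLaurent (Polynomial.C _)
      rw [Polynomial.toLaurent_C]
  exact T.thick_alg (e2.restrictScalars k) h6

theorem thick_cover {P : Sch k → Prop} (A B : Type) [CommRing A] [CommRing B] [Algebra k A]
    [Algebra k B] [Algebra A B] [IsScalarTower k A B] [Algebra.FiniteType k A] [Module.Free A B]
    [Module.Finite A B] (hi : Function.Injective (algebraMap A B))
    (h : T.thick P (T.Mc (aff k B))) : T.thick P (T.Mc (aff k A)) := by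
  obtain ⟨r⟩ := T.covers A B hi
  have : (T.sums P).triangEnvelope.IsStableUnderRetracts := inferInstance
  exact this.of_retract r h

theorem good (P : Sch k → Prop) : GoodF k (fun B _ _ => T.thick P (T.Mc (aff k B))) where
  iso A B _ _ _ _ _ e h := T.thick_alg e h
  glue B _ _ _ c h1 h2 :=
    T.thick_total _ _ (ft_aff (R := k) (A := B) True) (triple_away (R := k) c) h1 h2
  laurent A _ _ _ h := T.thick_laurent A h
  cover A B _ _ _ _ _ _ _ _ _ hi h := T.thick_cover A B hi h

/-- products `S × C_1 × ⋯ × C_m`, `dim S ≤ c`, and the schemes with `G` -/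
def Parts (c : ℕ) (G : Sch k → Prop) (X : Sch k) : Prop := CurveProd c X ∨ G X

theorem thick_mono {P Q : Sch k → Prop} (h : ∀ X, P X → Q X) {M : D} (hM : T.thick P M) :
    T.thick Q M :=
  monotone_triangEnvelope (P := T.sums P) (Q := T.sums Q) (fun _ hX => T.sum_mono h hX) M hM

/-- the motives of the schemes obtained by cutting and pasting -/
theorem thick_cut {c : ℕ} {G : Sch k → Prop} {X : Sch k} (h : Cut c G X) :
    T.thick (Parts c G) (T.Mc X) := by
  induction h with
  | known X hX => exact le_triangEnvelope _ _ (.var _ X 0 (Or.inr hX) (Iso.refl _))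
  | system A n s f N hA hN hf =>
    exact fermat_poly (T.good (Parts c G)) hN f hf fun E _ _ _ m hE _ =>
      T.thick_mono (fun _ h => Or.inl h) (T.generators c E m N (hE.trans hA) hN)
  | iso X Y hX e _ h =>
    obtain ⟨e'⟩ := T.iso hX e
    exact T.thick_iso e' h
  | total i j hX ht _ _ h1 h2 => exact T.thick_total i j hX ht h1 h2
  | opened i j hX ht _ _ h1 h2 => exact T.thick_opened i j hX ht h1 h2
  | closed i j hX ht _ _ h1 h2 => exact T.thick_closed i j hX ht h1 h2
  | cover A B hi _ h => exact T.thick_cover A B hi h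
  | quotient B Γ _ h =>
    obtain ⟨r⟩ := T.quotients B Γ
    have : (T.sums (Parts c G)).triangEnvelope.IsStableUnderRetracts := inferInstance
    exact this.of_retract r h
  | line A _ h => exact T.thick_line A h

/-- **Decomposition.** -/
theorem decomposition {c : ℕ} {G : Sch k → Prop} (hG : ∀ Y, G Y → SmoothProper Y) {X : Sch k}
    (hX : SmoothProper X) (h : Cut c G X) :
    ∃ M, T.Sum (Parts c G) M ∧ Nonempty (Retract (T.Mc X) M) :=
  T.exists_retract T.purity (fun Y h => h.elim (fun h => h.smoothProper) (hG Y)) hX (T.thick_cut h)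

section kuenneth

theorem kuenneth_retract {M N : D} (r : Retract M N) (h : T.Kuenneth N) : T.Kuenneth M := by
  intro i
  obtain ⟨e, he⟩ := h i
  refine ⟨r.i ≫ e ≫ r.r, fun j => ?_⟩
  have h1 := he j
  rw [op_comp, op_comp, Functor.map_comp, Functor.map_comp, h1]
  split_ifs with hj
  · rw [Category.comp_id, ← Functor.map_comp, ← op_comp, r.retract, op_id,
      CategoryTheory.Functor.map_id]
  · rw [comp_zero, zero_comp]

theorem kuenneth_iso {M N : D} (e : M ≅ N) (h : T.Kuenneth M) : T.Kuenneth N :=
  T.kuenneth_retract (Retract.ofIso e.symm) h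

theorem kuenneth_twist {M : D} (h : T.Kuenneth M) : T.Kuenneth (T.L.obj M) := by
  intro i
  obtain ⟨e, he⟩ := h (i - 2)
  refine ⟨T.L.map e, fun j => ?_⟩
  obtain ⟨t⟩ := T.twist j
  have h1 := t.hom.naturality e.op
  have h2 : (T.L.op ⋙ T.H j).map e.op = (T.H j).map (T.L.map e).op := rfl
  rw [← h2]
  have h3 : (T.L.op ⋙ T.H j).map e.op = t.hom.app _ ≫ (T.H (j - 2)).map e.op ≫ t.inv.app _ := by
    rw [← Category.assoc, ← h1, Category.assoc, Iso.hom_inv_id_app, Category.comp_id]
  rw [h3, he]
  by_cases hj : j = i
  · subst hj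
    rw [if_pos rfl, if_pos rfl, Category.id_comp, Iso.hom_inv_id_app]
  · rw [if_neg (by omega), if_neg hj, zero_comp, comp_zero]

theorem kuenneth_add {M N : D} (hM : T.Kuenneth M) (hN : T.Kuenneth N) : T.Kuenneth (M ⊞ N) := by
  intro i
  obtain ⟨e, he⟩ := hM i
  obtain ⟨e', he'⟩ := hN i
  refine ⟨biprod.fst ≫ e ≫ biprod.inl + biprod.snd ≫ e' ≫ biprod.inr, fun j => ?_⟩
  have := T.additive j
  rw [op_add, Functor.map_add, op_comp, op_comp, op_comp, op_comp, Functor.map_comp,
    Functor.map_comp, Functor.map_comp, Functor.map_comp, he, he']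
  split_ifs with hj
  · rw [Category.comp_id, Category.comp_id, ← Functor.map_comp, ← Functor.map_comp,
      ← Functor.map_add, ← op_comp, ← op_comp, ← op_add, biprod.total, op_id,
      CategoryTheory.Functor.map_id]
  · rw [comp_zero, zero_comp, comp_zero, zero_comp, add_zero]

theorem kuenneth_zero {M : D} (h : IsZero M) : T.Kuenneth M := by
  intro i
  refine ⟨𝟙 M, fun j => ?_⟩
  have := T.additive j
  have h1 : IsZero ((T.H j).obj (Opposite.op M)) := Functor.map_isZero _ h.op
  exact h1.eq_of_src _ _

theorem kuenneth_tw {M : D} (h : T.Kuenneth M) (a : ℕ) : T.Kuenneth (T.tw a M) := by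
  induction a with
  | zero => exact h
  | succ a ih =>
    unfold MotiveData.tw
    rw [Function.iterate_succ_apply']
    exact T.kuenneth_twist ih

theorem kuenneth_sum {P : Sch k → Prop} (hP : ∀ X, P X → T.Kuenneth (T.Mc X)) {M : D}
    (hM : T.Sum P M) : T.Kuenneth M := by
  induction hM with
  | zero M h => exact T.kuenneth_zero h
  | var M Y a hY e => exact T.kuenneth_iso e.symm (T.kuenneth_tw (hP Y hY) a)
  | add M N R _ _ e h1 h2 => exact T.kuenneth_iso e.symm (T.kuenneth_add h1 h2)

theorem kuenneth_curveProd {c : ℕ} (hc : ∀ X : Sch k, SmoothProper X → DimLE c X → T.Kuenneth (T.Mc X))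
    {X : Sch k} (h : CurveProd c X) : T.Kuenneth (T.Mc X) := by
  induction h with
  | base S h1 h2 => exact hc S h1 h2
  | mul X C h0 h1 h2 ih =>
    refine T.kuenneth X C h0.smoothProper h1 ih (T.surfaces C h1 (h2.trans ?_))
    exact_mod_cast (by norm_num : (1 : ℕ) ≤ 2)

end kuenneth

end MotiveTheory

end Pool.Agent.E8helper74.FC
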