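import Pool.Agent.E8helper74.FC.Good

/-!
# Kimura finite-dimensional motives and Chow-Künneth decompositions
-/

set_option autoImplicit false
set_option linter.unusedSectionVars false

open CategoryTheory CategoryTheory.Limits CategoryTheory.Pretriangulated AlgebraicGeometry
open Pool.Agent.Y116.UV Pool.Agent.E8helper74.FQ
open scoped ZeroObject

namespace Pool.Agent.E8helper74.FC

universe v u

/-- A theory of motives as before, with the class of the (Kimura) finite-dimensional motives. The properties are
known theorems of Kimura and O'Sullivan. -/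
structure KimuraTheory (k : Type) [Field k] (K : Type) [Field K]
    (D : Type u) [Category.{v} D] [Preadditive D] [HasZeroObject D] [HasShift D ℤ]
    [∀ n : ℤ, (shiftFunctor D n).Additive] [Pretriangulated D] extends MotiveTheory k K D where
  /-- the motive is finite-dimensional -/
  Kim : D → Prop
  /-- the zero motive -/
  kim_zero : ∀ M : D, IsZero M → Kim M
  /-- direct sums -/
  kim_sum : ∀ M N R : D, Kim M → Kim N → Nonempty (R ≅ M ⊞ N) → Kim R
  /-- direct summands -/
  kim_retract : ∀ M N : D, Kim N → Nonempty (Retract M N) → Kim M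
  /-- twists -/
  kim_twist : ∀ M : D, Kim M → Kim (L.obj M)
  /-- products -/
  kim_prod : ∀ X Y : Sch k, SmoothProper X → SmoothProper Y → Kim (Mc X) → Kim (Mc Y) →
    Kim (Mc (prodSch X Y))
  /-- curves -/
  kim_curve : ∀ C : Sch k, SmoothProper C → DimLE 1 C → Kim (Mc C)
  /-- an endomorphism which acts as zero on cohomology is nilpotent -/
  nilpotence : ∀ M : D, Kim M → ∀ f : End M, (∀ j : ℤ, (H j).map (Quiver.Hom.op f) = 0) → IsNilpotent f
  /-- `H^j(X) = 0` for `j < 0` and for `j > 2 dim X` -/
  degrees : ∀ (X : Sch k) (d : ℕ), SmoothProper X → DimLE d X → ∀ j : ℤ, j < 0 ∨ 2 * (d : ℤ) < j →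
    IsZero ((H j).obj (Opposite.op (Mc X)))

namespace MotiveData

variable {k : Type} [Field k] {K : Type} [Field K]
  {D : Type u} [Category.{v} D] [Preadditive D] [HasZeroObject D] [HasShift D ℤ]
  [∀ n : ℤ, (shiftFunctor D n).Additive] [Pretriangulated D] (T : MotiveData k K D)

/-- A Chow-Künneth decomposition of `M` in the degrees `0, ..., 2 d`: orthogonal idempotents `π_0, ..., π_{2 d}` of
`M` with sum `1`, such that `π_i` acts as the identity on `H^i` and as zero on `H^j` for `j ≠ i`. -/
def HasCK (d : ℕ) (M : D) : Prop :=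
  ∃ π : Fin (2 * d + 1) → (M ⟶ M), (∀ i, π i ≫ π i = π i) ∧ (∀ i j, i ≠ j → π i ≫ π j = 0) ∧
    ∑ i, π i = 𝟙 M ∧
    ∀ (i : Fin (2 * d + 1)) (j : ℤ), (T.H j).map (π i).op = if j = (i : ℕ) then 𝟙 _ else 0

end MotiveData

namespace KimuraTheory

variable {k : Type} [Field k] {K : Type} [Field K]
  {D : Type u} [Category.{v} D] [Preadditive D] [HasZeroObject D] [HasShift D ℤ]
  [∀ n : ℤ, (shiftFunctor D n).Additive] [Pretriangulated D] [IsTriangulated D]
  (T : KimuraTheory k K D)

/-- the action on cohomology as a ring homomorphism -/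
noncomputable def act (M : D) : End M →+* (∀ j : ℤ, (End ((T.H j).obj (Opposite.op M)))ᵐᵒᵖ) :=
  RingHom.pi fun j =>
    haveI := T.additive j
    { toFun := fun x => MulOpposite.op ((T.H j).map (Quiver.Hom.op x))
      map_one' := by
        rw [← MulOpposite.op_one]
        congr 1
        exact (T.H j).map_id _
      map_mul' := by
        intro x y
        rw [← MulOpposite.op_mul]
        congr 1
        rw [End.mul_def, End.mul_def]
        exact (T.H j).map_comp _ _
      map_zero' := by
        rw [← MulOpposite.op_zero]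
        congr 1
        exact (T.H j).map_zero _ _
      map_add' := by
        intro x y
        rw [← MulOpposite.op_add]
        congr 1
        exact (T.H j).map_add }

theorem act_apply {M : D} (x : End M) (j : ℤ) :
    T.act M x j = MulOpposite.op ((T.H j).map (Quiver.Hom.op x)) := rfl

theorem hasCK_of_kim {M : D} (hM : T.Kim M) (hC : T.Kuenneth M) (d : ℕ)
    (hd : ∀ j : ℤ, j < 0 ∨ 2 * (d : ℤ) < j → IsZero ((T.H j).obj (Opposite.op M))) :
    T.HasCK d M := by
  choose e he using hC
  let ε : Fin (2 * d + 1) → End M := fun i => e ((i : ℕ) : ℤ)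
  have hε : ∀ (i : Fin (2 * d + 1)) (j : ℤ), T.act M (ε i) j = if j = (i : ℕ) then 1 else 0 := by
    intro i j
    rw [act_apply]
    have h1 := he ((i : ℕ) : ℤ) j
    have h2 : (T.H j).map (Quiver.Hom.op (ε i)) = if j = (i : ℕ) then 𝟙 _ else 0 := h1
    rw [h2]
    split_ifs with h3
    · rfl
    · rfl
  have hco : CompleteOrthogonalIdempotents (fun i => T.act M (ε i)) := by
    refine ⟨⟨?_, ?_⟩, ?_⟩
    · intro i
      funext j
      change T.act M (ε i) j * T.act M (ε i) j = T.act M (ε i) j
      rw [hε]
      split_ifs <;> simp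
    · intro i i' hi
      funext j
      change T.act M (ε i) j * T.act M (ε i') j = 0
      rw [hε, hε]
      split_ifs with h1 h2
      · exfalso
        apply hi
        apply Fin.ext
        have h3 : ((i : ℕ) : ℤ) = ((i' : ℕ) : ℤ) := h1.symm.trans h2
        exact_mod_cast h3
      · simp
      · simp
      · simp
    · funext j
      rw [Finset.sum_apply]
      change ∑ i, T.act M (ε i) j = 1
      simp only [hε]
      by_cases hj : 0 ≤ j ∧ j ≤ 2 * (d : ℤ)
      · obtain ⟨m, rfl⟩ := Int.eq_ofNat_of_zero_le hj.1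
        have hm : m < 2 * d + 1 := by omega
        rw [Finset.sum_eq_single (⟨m, hm⟩ : Fin (2 * d + 1))]
        · rw [if_pos rfl]
        · intro i _ hi
          rw [if_neg]
          intro h1
          apply hi
          apply Fin.ext
          exact_mod_cast h1.symm
        · intro h1
          exact absurd (Finset.mem_univ _) h1
      · have h1 : j < 0 ∨ 2 * (d : ℤ) < j := by omega
        have h2 := hd j h1
        have h3 : (1 : (End ((T.H j).obj (Opposite.op M)))ᵐᵒᵖ) = 0 := by
          apply MulOpposite.unop_injective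
          exact h2.eq_of_src _ _
        have h4 : ∀ x : (End ((T.H j).obj (Opposite.op M)))ᵐᵒᵖ, x = 0 := by
          intro x
          rw [← mul_one x, h3, mul_zero]
        rw [h4 (∑ _, _), h4 1]
  obtain ⟨π, hπ, hπ'⟩ := CompleteOrthogonalIdempotents.lift_of_isNilpotent_ker (T.act M) (by
    intro x hx
    refine T.nilpotence M hM x fun j => ?_
    have h1 := congrFun (RingHom.mem_ker.mp hx) j
    rw [act_apply] at h1
    exact MulOpposite.op_injective h1) hco (fun i => ⟨ε i, rfl⟩)
  refine ⟨π, ?_, ?_, ?_, ?_⟩
  · intro i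
    exact hπ.idem i
  · intro i j hij
    exact hπ.ortho (Ne.symm hij)
  · exact hπ.complete
  · intro i j
    have h1 := congrFun (congrFun hπ' i) j
    rw [Function.comp_apply, hε, act_apply] at h1
    have h2 : (T.H j).map (Quiver.Hom.op (π i)) = MulOpposite.unop
        (if j = (i : ℕ) then (1 : (End ((T.H j).obj (Opposite.op M)))ᵐᵒᵖ) else 0) := by
      rw [← h1, MulOpposite.unop_op]
    have h3 : (T.H j).map (π i).op = (T.H j).map (Quiver.Hom.op (π i)) := rfl
    rw [h3, h2]
    split_ifs
    · rfl
    · rfl

theorem kim_tw {M : D} (h : T.Kim M) (a : ℕ) : T.Kim (T.tw a M) := by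
  induction a with
  | zero => exact h
  | succ a ih =>
    unfold MotiveData.tw
    rw [Function.iterate_succ_apply']
    exact T.kim_twist _ ih

theorem kim_sums {P : Sch k → Prop} (hP : ∀ X, P X → T.Kim (T.Mc X)) {M : D} (hM : T.Sum P M) :
    T.Kim M := by
  induction hM with
  | zero M h => exact T.kim_zero M h
  | var M Y a hY e => exact T.kim_retract _ _ (T.kim_tw (hP Y hY) a) ⟨Retract.ofIso e⟩
  | add M N R _ _ e h1 h2 => exact T.kim_sum _ _ _ h1 h2 ⟨e⟩

theorem kim_curveProd {c : ℕ} (hc : ∀ X : Sch k, SmoothProper X → DimLE c X → T.Kim (T.Mc X))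
    {X : Sch k} (h : CurveProd c X) : T.Kim (T.Mc X) := by
  induction h with
  | base S h1 h2 => exact hc S h1 h2
  | mul X C h0 h1 h2 ih => exact T.kim_prod X C h0.smoothProper h1 ih (T.kim_curve C h1 h2)

end KimuraTheory

end Pool.Agent.E8helper74.FC
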