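import Pool.Agent.E8helper74.FC.Weight
import Pool.Agent.E8helper74.FQ.Poly
import Pool.Agent.E8helper74.FQ.SchF

/-!
# Motives with compact supports
-/

set_option autoImplicit false
set_option linter.unusedSectionVars false

open CategoryTheory CategoryTheory.Limits CategoryTheory.Pretriangulated AlgebraicGeometry
open Pool.Agent.Y116.UV Pool.Agent.E8helper74.FQ
open scoped ZeroObject

namespace Pool.Agent.E8helper74.FC

universe v u

/-- `X` is smooth and proper over `k` -/
def SmoothProper {k : Type} [Field k] (X : Sch k) : Prop := Smooth X.hom ∧ IsProper X.hom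

/-- the dimension of `X` is at most `c` -/
def DimLE {k : Type} [Field k] (c : ℕ) (X : Sch k) : Prop :=
  topologicalKrullDim X.left ≤ ((c : ℕ) : WithBot ℕ∞)

/-- the product over `k` -/
noncomputable def prodSch {k : Type} [Field k] (X Y : Sch k) : Sch k :=
  Over.mk (pullback.fst X.hom Y.hom ≫ X.hom)

/-- `S × C_1 × ⋯ × C_m`, where `S` and the `C_i` are smooth and proper over `k`, `dim S ≤ c` and `dim C_i ≤ 1` -/
inductive CurveProd {k : Type} [Field k] (c : ℕ) : Sch k → Prop
  | base (S : Sch k) : SmoothProper S → DimLE c S → CurveProd c S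
  | mul (X C : Sch k) : CurveProd c X → SmoothProper C → DimLE 1 C → CurveProd c (prodSch X C)

theorem smoothProper_prod {k : Type} [Field k] {X Y : Sch k} (hX : SmoothProper X)
    (hY : SmoothProper Y) : SmoothProper (prodSch X Y) := by
  obtain ⟨h1, h2⟩ := hX
  obtain ⟨h3, h4⟩ := hY
  constructor
  · change Smooth (pullback.fst X.hom Y.hom ≫ X.hom)
    infer_instance
  · change IsProper (pullback.fst X.hom Y.hom ≫ X.hom)
    infer_instance

theorem CurveProd.smoothProper {k : Type} [Field k] {c : ℕ} {X : Sch k} (h : CurveProd c X) :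
    SmoothProper X := by
  induction h with
  | base S h1 _ => exact h1
  | mul X C _ h1 _ h2 => exact smoothProper_prod h2 h1

section

variable (k : Type) [Field k] (K : Type) [Field K]
  (D : Type u) [Category.{v} D] [Preadditive D] [HasZeroObject D] [HasShift D ℤ]
  [∀ n : ℤ, (shiftFunctor D n).Additive] [Pretriangulated D]

/-- Motives with compact supports of the separated schemes of finite type over `k`, with rational coefficients
(`D` is Voevodsky's category of geometric motives), and the realization functor of a Weil cohomology with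
coefficients in `K`. -/
structure MotiveData where
  /-- the motive with compact supports `M^c(X)`; for smooth and proper `X` this is the motive `h(X)` -/
  Mc : Sch k → D
  /-- the twist `M ↦ M(1)[2]` -/
  L : D ⥤ D
  /-- the twist commutes with the shifts -/
  commShift : L.CommShift ℤ
  /-- cohomology of the realization; `H i (op (h X)) = H^i(X)` for smooth and proper `X` -/
  H : ℤ → Dᵒᵖ ⥤ ModuleCat.{0} K

end

namespace MotiveData

variable {k : Type} [Field k] {K : Type} [Field K]
  {D : Type u} [Category.{v} D] [Preadditive D] [HasZeroObject D] [HasShift D ℤ]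
  [∀ n : ℤ, (shiftFunctor D n).Additive] [Pretriangulated D] (T : MotiveData k K D)

attribute [instance] MotiveData.commShift

/-- `M(a)[2a]` -/
def tw (a : ℕ) (M : D) : D := (T.L.obj)^[a] M

/-- The Künneth projectors of `M` are given by endomorphisms: for every `i` there is `e` in `End M` which acts as
the identity on `H^i(M)` and as zero on `H^j(M)` for `j ≠ i`. For smooth and proper `X` of dimension `d`,
`End (h X) = CH^d(X × X)_ℚ`, and this is the conjecture `C(X)`. -/
def Kuenneth (M : D) : Prop :=
  ∀ i : ℤ, ∃ e : M ⟶ M, ∀ j : ℤ, (T.H j).map e.op = if j = i then 𝟙 _ else 0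

/-- finite direct sums of the motives `M^c(Y)(a)[2a]`, where `Y` satisfies `P` -/
inductive Sum (P : Sch k → Prop) : D → Prop
  | zero (M : D) : IsZero M → Sum P M
  | var (M : D) (Y : Sch k) (a : ℕ) : P Y → (M ≅ T.tw a (T.Mc Y)) → Sum P M
  | add (M N R : D) : Sum P M → Sum P N → (R ≅ M ⊞ N) → Sum P R

/-- the class of the finite direct sums of the motives `M^c(Y)(a)[2a]`, where `Y` satisfies `P` -/
def sums (P : Sch k → Prop) : ObjectProperty D := fun M => T.Sum P M

/-- Localization: for a closed subscheme `Z` of `X` with complement `U` there is a distinguished triangle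
`M^c(Z) → M^c(X) → M^c(U) → M^c(Z)[1]`. -/
def Localization : Prop :=
  ∀ {Z X U : Sch k} (i : Z ⟶ X) (j : U ⟶ X), FT True X → IsTriple i j →
    ∃ (u : T.Mc Z ⟶ T.Mc X) (v : T.Mc X ⟶ T.Mc U) (w : T.Mc U ⟶ (T.Mc Z)⟦(1 : ℤ)⟧),
      Triangle.mk u v w ∈ distTriang D

/-- Purity: there are no nonzero morphisms from `M(X)(a)[2a]` to `M(Y)(b)[2b + i]` for smooth and proper `X` and
`Y` and `i > 0`. -/
def Purity : Prop :=
  ∀ X Y : Sch k, SmoothProper X → SmoothProper Y → ∀ (a b : ℕ) (i : ℤ), 0 < i →
    Orth (T.tw a (T.Mc X)) ((T.tw b (T.Mc Y))⟦i⟧)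

/-- Covers: if `B` is a finite free `A`-algebra, `B ⊇ A`, then `M^c(Spec A)` is a direct summand of
`M^c(Spec B)`, since `f_* f^*` is multiplication by the rank. -/
def Covers : Prop :=
  ∀ (A B : Type) [CommRing A] [CommRing B] [Algebra k A] [Algebra k B] [Algebra A B]
    [IsScalarTower k A B] [Algebra.FiniteType k A] [Module.Free A B] [Module.Finite A B],
    Function.Injective (algebraMap A B) → Nonempty (Retract (T.Mc (aff k A)) (T.Mc (aff k B)))

/-- Quotients: if a finite group `Γ` acts on a finitely generated `k`-algebra `B`, then `M^c(Spec B^Γ)` is a direct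
summand of `M^c(Spec B)`. -/
def Quotients : Prop :=
  ∀ (B : Type) [CommRing B] [Algebra k B] [Algebra.FiniteType k B] (Γ : Type) [Group Γ] [Finite Γ]
    [MulSemiringAction Γ B] [SMulCommClass Γ k B],
    Nonempty (Retract (T.Mc (aff k (FixedPoints.subalgebra k B Γ))) (T.Mc (aff k B)))

/-- Generators: let `E` be a finitely generated `k`-algebra of dimension at most `c` and `C` the curve
`y ^ N + z ^ N = 1`, `y z ≠ 0`. The motive of `Spec E × C ^ m` is in the thick triangulated subcategory generated
by the motives of the products `S × C_1 × ⋯ × C_n` (`CurveProd c`). -/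
def Generators : Prop :=
  ∀ (c : ℕ) (E : Type) [CommRing E] [Algebra k E] [Algebra.FiniteType k E] (m N : ℕ),
    ringKrullDim E ≤ ((c : ℕ) : WithBot ℕ∞) → 0 < N →
      (T.sums (CurveProd c)).triangEnvelope (T.Mc (aff k (Fer E m N)))

end MotiveData

/-- The properties of motives with compact supports and of Weil cohomology which are used; all of them are
known. -/
structure MotiveTheory (k : Type) [Field k] (K : Type) [Field K]
    (D : Type u) [Category.{v} D] [Preadditive D] [HasZeroObject D] [HasShift D ℤ]
    [∀ n : ℤ, (shiftFunctor D n).Additive] [Pretriangulated D] extends MotiveData k K D where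
  /-- the twist is a triangulated functor -/
  triangulated : L.IsTriangulated
  /-- `M^c(X)` depends only on the isomorphism class of `X` -/
  iso : ∀ {X Y : Sch k}, FT True X → Nonempty (X ≅ Y) → Nonempty (Mc X ≅ Mc Y)
  /-- localization -/
  localization : toMotiveData.Localization
  /-- `M^c(X × 𝔸^1) = M^c(X)(1)[2]` -/
  line : ∀ (A : Type) [CommRing A] [Algebra k A] [Algebra.FiniteType k A],
    Nonempty (Mc (aff k (Polynomial A)) ≅ L.obj (Mc (aff k A)))
  /-- finite coverings -/
  covers : toMotiveData.Covers
  /-- quotients by finite groups -/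
  quotients : toMotiveData.Quotients
  /-- no positive morphisms between Chow motives -/
  purity : toMotiveData.Purity
  /-- resolution of singularities or alterations, and the Künneth formula -/
  generators : toMotiveData.Generators
  /-- the cohomology is additive -/
  additive : ∀ i, (H i).Additive
  /-- `H^i(M(1)[2]) = H^{i-2}(M)` (Tate twists are suppressed) -/
  twist : ∀ i, Nonempty (L.op ⋙ H i ≅ H (i - 2))
  /-- the conjecture `C` is known for curves and surfaces -/
  surfaces : ∀ X : Sch k, SmoothProper X → DimLE 2 X → toMotiveData.Kuenneth (Mc X)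
  /-- `C(X)` and `C(Y)` imply `C(X × Y)` -/
  kuenneth : ∀ X Y : Sch k, SmoothProper X → SmoothProper Y → toMotiveData.Kuenneth (Mc X) →
    toMotiveData.Kuenneth (Mc Y) → toMotiveData.Kuenneth (Mc (prodSch X Y))

namespace MotiveData

variable {k : Type} [Field k] {K : Type} [Field K]
  {D : Type u} [Category.{v} D] [Preadditive D] [HasZeroObject D] [HasShift D ℤ]
  [∀ n : ℤ, (shiftFunctor D n).Additive] [Pretriangulated D] (T : MotiveData k K D)

section orth

theorem orth_sum_left {M N R X : D} (e : R ≅ M ⊞ N) (h1 : Orth M X) (h2 : Orth N X) : Orth R X := by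
  refine Orth.iso_left e.symm ?_
  intro f
  refine biprod.hom_ext' _ _ ?_ ?_
  · rw [h1 (biprod.inl ≫ f), comp_zero]
  · rw [h2 (biprod.inr ≫ f), comp_zero]

theorem orth_sum_right {M N R X : D} (e : R ≅ M ⊞ N) (i : ℤ) (h1 : Orth X (M⟦i⟧))
    (h2 : Orth X (N⟦i⟧)) : Orth X (R⟦i⟧) := by
  refine Orth.iso_right ((shiftFunctor D i).mapIso e.symm) ?_
  intro f
  have h3 : 𝟙 (M ⊞ N) = biprod.fst ≫ biprod.inl + biprod.snd ≫ biprod.inr := by simp
  have h4 : f = f ≫ (shiftFunctor D i).map (𝟙 (M ⊞ N)) := by
    rw [CategoryTheory.Functor.map_id, Category.comp_id]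
  rw [h4, h3, Functor.map_add, Functor.map_comp, Functor.map_comp, Preadditive.comp_add,
    ← Category.assoc, ← Category.assoc, h1 (f ≫ _), h2 (f ≫ _), zero_comp, zero_comp, add_zero]

theorem orth_sums (hT : T.Purity) {P Q : Sch k → Prop} (hP : ∀ X, P X → SmoothProper X)
    (hQ : ∀ X, Q X → SmoothProper X) {M N : D} (hM : T.Sum P M) (hN : T.Sum Q N) (i : ℤ)
    (hi : 0 < i) : Orth M (N⟦i⟧) := by
  induction hM with
  | zero M h => exact fun f => h.eq_of_src _ _
  | add M N R _ _ e h1 h2 => exact orth_sum_left e h1 h2
  | var M Y a hY e =>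
    refine Orth.iso_left e.symm ?_
    induction hN with
    | zero M h => exact fun f => (Functor.map_isZero _ h).eq_of_tgt _ _
    | add M N R _ _ e' h1 h2 => exact orth_sum_right e' i h1 h2
    | var M Z b hZ e' =>
      exact (hT Y Z (hP Y hY) (hQ Z hZ) a b i hi).iso_right ((shiftFunctor D i).mapIso e'.symm)

end orth

theorem sum_iso {P : Sch k → Prop} {M N : D} (hM : T.Sum P M) (e : M ≅ N) : T.Sum P N := by
  have h0 : T.Sum P (0 : D) := .zero _ (isZero_zero D)
  refine .add M 0 N hM h0 (e.symm ≪≫ ?_)
  exact { hom := biprod.inl, inv := biprod.fst,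
          inv_hom_id := by
            refine biprod.hom_ext' _ _ (by simp) ((isZero_zero D).eq_of_src _ _) }

theorem sum_mono {P Q : Sch k → Prop} (h : ∀ X, P X → Q X) {M : D} (hM : T.Sum P M) : T.Sum Q M := by
  induction hM with
  | zero M h0 => exact .zero M h0
  | var M Y a hY e => exact .var M Y a (h Y hY) e
  | add M N R _ _ e h1 h2 => exact .add M N R h1 h2 e

/-- additive functors commute with direct sums -/
noncomputable def mapSum (F : D ⥤ D) [F.Additive] (M N : D) : F.obj (M ⊞ N) ≅ F.obj M ⊞ F.obj N where
  hom := biprod.lift (F.map biprod.fst) (F.map biprod.snd)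
  inv := biprod.desc (F.map biprod.inl) (F.map biprod.inr)
  hom_inv_id := by
    rw [biprod.lift_desc, ← F.map_comp, ← F.map_comp, ← F.map_add, biprod.total,
      CategoryTheory.Functor.map_id]
  inv_hom_id := by
    refine biprod.hom_ext' _ _ ?_ ?_
    · refine biprod.hom_ext _ _ ?_ ?_
      · simp [← F.map_comp]
      · simp [← F.map_comp]
    · refine biprod.hom_ext _ _ ?_ ?_
      · simp [← F.map_comp]
      · simp [← F.map_comp]

theorem sum_twist [T.L.Additive] {P : Sch k → Prop} {M : D} (hM : T.Sum P M) :
    T.Sum P (T.L.obj M) := by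
  induction hM with
  | zero M h => exact .zero _ (Functor.map_isZero _ h)
  | var M Y a hY e =>
    refine .var _ Y (a + 1) hY (T.L.mapIso e ≪≫ eqToIso ?_)
    unfold tw
    rw [Function.iterate_succ_apply']
  | add M N R _ _ e h1 h2 =>
    exact .add _ _ _ h1 h2 (T.L.mapIso e ≪≫ mapSum T.L M N)

instance (P : Sch k → Prop) : (T.sums P).Nonempty := ⟨⟨0, .zero _ (isZero_zero D)⟩⟩

/-- A smooth and proper `X` whose motive is in the thick subcategory generated by the motives of smooth and proper
schemes with `P` is a direct summand of a finite sum of twists of such motives. -/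
theorem exists_retract [IsTriangulated D] (hT : T.Purity) {P : Sch k → Prop}
    (hP : ∀ X, P X → SmoothProper X) {X : Sch k} (hX : SmoothProper X)
    (h : (T.sums P).triangEnvelope (T.Mc X)) : ∃ M, T.Sum P M ∧ Nonempty (Retract (T.Mc X) M) := by
  have hX' : T.Sum SmoothProper (T.Mc X) := .var _ X 0 hX (Iso.refl _)
  refine FC.exists_retract (S := T.sums P) ?_ ⟨0, .zero _ (isZero_zero D), isZero_zero D⟩ ?_ h ?_ ?_
  · intro M N hM hN i hi
    exact T.orth_sums hT hP hP hM hN i hi
  · intro M N R hM hN e
    exact .add M N R hM hN e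
  · intro s hs i hi
    exact T.orth_sums hT (fun _ h => h) hP hX' hs i hi
  · intro s hs i hi
    exact T.orth_sums hT hP (fun _ h => h) hs hX' i hi

end MotiveData

end Pool.Agent.E8helper74.FC
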