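import Mathlib

/-!
# Pure objects of a triangulated category generated by pure objects

Let `S` be a class of objects of a triangulated category which is closed under finite sums and has no morphisms
from `X` to `Y⟦i⟧`, `i > 0`. If `X` is in the thick triangulated subcategory generated by `S`, and there are no
nonzero morphisms from `X` to `s⟦i⟧` and from `s` to `X⟦i⟧` for `s` in `S` and `i > 0`, then `X` is a direct summand
of an object of `S`. (This is a part of the theory of weight structures of Bondarko.)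
-/

set_option autoImplicit false
set_option linter.unusedSectionVars false

open CategoryTheory CategoryTheory.Limits CategoryTheory.Pretriangulated
open CategoryTheory.ObjectProperty
open scoped ZeroObject

namespace Pool.Agent.E8helper74.FC

universe v u

variable {C : Type u} [Category.{v} C] [HasZeroObject C] [HasShift C ℤ] [Preadditive C]
  [∀ n : ℤ, (shiftFunctor C n).Additive] [Pretriangulated C]

/-- all morphisms from `X` to `Y` are zero -/
def Orth (X Y : C) : Prop := ∀ f : X ⟶ Y, f = 0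

theorem Orth.iso_left {X X' Y : C} (e : X ≅ X') (h : Orth X Y) : Orth X' Y := by
  intro f
  have h1 := h (e.hom ≫ f)
  rw [← Iso.eq_inv_comp, comp_zero] at h1
  exact h1

theorem Orth.iso_right {X Y Y' : C} (e : Y ≅ Y') (h : Orth X Y) : Orth X Y' := by
  intro f
  have h1 := h (f ≫ e.inv)
  rw [Iso.comp_inv_eq, zero_comp] at h1
  exact h1

theorem Orth.retract_left {X X' Y : C} (e : Retract X' X) (h : Orth X Y) : Orth X' Y := by
  intro f
  have h1 := h (e.r ≫ f)
  have h2 : e.i ≫ e.r ≫ f = f := by rw [← Category.assoc, e.retract, Category.id_comp]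
  rw [← h2, h1, comp_zero]

theorem Orth.retract_right {X Y Y' : C} (e : Retract Y' Y) (h : Orth X Y) : Orth X Y' := by
  intro f
  have h1 := h (f ≫ e.i)
  have h2 : (f ≫ e.i) ≫ e.r = f := by rw [Category.assoc, e.retract, Category.comp_id]
  rw [← h2, h1, zero_comp]

theorem Orth.shift {X Y : C} (n : ℤ) (h : Orth X Y) : Orth (X⟦n⟧) (Y⟦n⟧) := by
  intro f
  obtain ⟨g, rfl⟩ := (shiftFunctor C n).map_surjective f
  rw [h g, Functor.map_zero]

theorem Orth.of_shift {X Y : C} (n : ℤ) (h : Orth (X⟦n⟧) (Y⟦n⟧)) : Orth X Y := by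
  intro f
  apply (shiftFunctor C n).map_injective
  rw [h ((shiftFunctor C n).map f), Functor.map_zero]

/-- closure under extensions and isomorphisms -/
inductive Env (Q : ObjectProperty C) : C → Prop
  | of (X : C) : Q X → Env Q X
  | ext (T : Triangle C) : T ∈ distTriang C → Env Q T.obj₁ → Env Q T.obj₃ → Env Q T.obj₂
  | iso (X Y : C) : (X ≅ Y) → Env Q X → Env Q Y

variable {Q R : ObjectProperty C}

theorem orth_env_right {X : C} (h : ∀ q, Q q → Orth X q) {M : C} (hM : Env Q M) : Orth X M := by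
  induction hM with
  | of Y hY => exact h Y hY
  | ext T hT _ _ h1 h3 =>
    intro f
    obtain ⟨g, rfl⟩ := Triangle.coyoneda_exact₂ T hT f (h3 _)
    rw [h1 g, zero_comp]
  | iso Y Z e _ h1 => exact h1.iso_right e

theorem orth_env_left {Y : C} (h : ∀ q, Q q → Orth q Y) {M : C} (hM : Env Q M) : Orth M Y := by
  induction hM with
  | of X hX => exact h X hX
  | ext T hT _ _ h1 h3 =>
    intro f
    obtain ⟨g, rfl⟩ := Triangle.yoneda_exact₂ T hT f (h1 _)
    rw [h3 g, comp_zero]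
  | iso Y Z e _ h1 => exact h1.iso_left e

theorem env_shift {n : ℤ} (h : ∀ q, Q q → R (q⟦n⟧)) {M : C} (hM : Env Q M) : Env R (M⟦n⟧) := by
  induction hM with
  | of X hX => exact .of _ (h X hX)
  | ext T hT _ _ h1 h3 =>
    exact .ext _ (Triangle.shift_distinguished T hT n) h1 h3
  | iso Y Z e _ h1 => exact .iso _ _ ((shiftFunctor C n).mapIso e) h1

theorem env_mono (h : Q ≤ R) {M : C} (hM : Env Q M) : Env R M := by
  induction hM with
  | of X hX => exact .of _ (h X hX)
  | ext T hT _ _ h1 h3 => exact .ext _ hT h1 h3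
  | iso Y Z e _ h1 => exact .iso _ _ e h1

/-- the closure as a property of objects -/
def env (Q : ObjectProperty C) : ObjectProperty C := fun X => Env Q X

theorem env_mul_env : extensionProduct (env Q) (env Q) ≤ env Q := by
  rintro X ⟨Y, Z, f, g, h, hT, h1, h3⟩
  exact Env.ext _ hT h1 h3

/-- a triangle with third morphism zero -/
theorem swap {P Q : ObjectProperty C} (h : ∀ q p, Q q → P p → Orth q (p⟦(1 : ℤ)⟧)) :
    extensionProduct P Q ≤ extensionProduct Q P := by
  rintro X ⟨Y, Z, f, g, k, hT, hY, hZ⟩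
  obtain ⟨e, -, -⟩ := exists_iso_binaryBiproduct_of_distTriang _ hT (h Z Y hZ hY k)
  have e' : X ≅ Z ⊞ Y := e ≪≫ biprod.braiding _ _
  have h1 := binaryBiproductTriangle_distinguished Z Y
  refine (extensionProduct Q P).prop_of_iso e'.symm ?_
  exact ⟨Z, Y, _, _, _, h1, hZ, hY⟩

variable [IsTriangulated C]

theorem mul_mul {P Q : ObjectProperty C} (hP : extensionProduct P P ≤ P)
    (hQ : extensionProduct Q Q ≤ Q) (h : extensionProduct Q P ≤ extensionProduct P Q) :
    extensionProduct (extensionProduct P Q) (extensionProduct P Q) ≤ extensionProduct P Q := by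
  rw [extensionProduct_assoc, ← extensionProduct_assoc Q P Q]
  refine (monotone_extensionProduct_right P (monotone_extensionProduct_left Q h)).trans ?_
  rw [extensionProduct_assoc P Q Q, ← extensionProduct_assoc P P]
  exact (monotone_extensionProduct_left _ hP).trans (monotone_extensionProduct_right P hQ)

section

variable (S : ObjectProperty C)

/-- shifts by at most `n` -/
def lo (n : ℤ) : ObjectProperty C := fun X => ∃ s j, S s ∧ j ≤ n ∧ Nonempty (X ≅ s⟦j⟧)

/-- shifts by at least `n` -/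
def hi (n : ℤ) : ObjectProperty C := fun X => ∃ s j, S s ∧ n ≤ j ∧ Nonempty (X ≅ s⟦j⟧)

/-- `M` has weight decompositions -/
def Dec (n : ℤ) : ObjectProperty C := extensionProduct (env (lo S n)) (env (hi S (n + 1)))

variable {S}

/-- no positive morphisms -/
def Neg (S : ObjectProperty C) : Prop := ∀ X Y, S X → S Y → ∀ i : ℤ, 0 < i → Orth X (Y⟦i⟧)

theorem orth_shift {X Y : C} (h : ∀ i : ℤ, 0 < i → Orth X (Y⟦i⟧)) {a b : ℤ} (hab : a < b) :
    Orth (X⟦a⟧) (Y⟦b⟧) := by
  have h1 : Orth (X⟦a⟧) (Y⟦b - a⟧⟦a⟧) := (h (b - a) (by omega)).shift a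
  exact h1.iso_right ((shiftFunctorAdd' C (b - a) a b (by omega)).app Y).symm

theorem orth_lo_hi (hS : Neg S) {a b : ℤ} (hab : a < b) {X Y : C} (hX : Env (lo S a) X)
    (hY : Env (hi S b) Y) : Orth X Y := by
  refine orth_env_left (fun q hq => ?_) hX
  refine orth_env_right (fun r hr => ?_) hY
  obtain ⟨s, j, hs, hj, ⟨e⟩⟩ := hq
  obtain ⟨t, l, ht, hl, ⟨e'⟩⟩ := hr
  exact ((orth_shift (hS s t hs ht) (show j < l by omega)).iso_left e.symm).iso_right e'.symm

theorem hi_shift {n m : ℤ} {X : C} (h : hi S n X) : hi S (n + m) (X⟦m⟧) := by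
  obtain ⟨s, j, hs, hj, ⟨e⟩⟩ := h
  exact ⟨s, j + m, hs, by omega, ⟨(shiftFunctor C m).mapIso e ≪≫ (shiftFunctorAdd C j m).symm.app s⟩⟩

theorem lo_shift {n m : ℤ} {X : C} (h : lo S n X) : lo S (n + m) (X⟦m⟧) := by
  obtain ⟨s, j, hs, hj, ⟨e⟩⟩ := h
  exact ⟨s, j + m, hs, by omega, ⟨(shiftFunctor C m).mapIso e ≪≫ (shiftFunctorAdd C j m).symm.app s⟩⟩

theorem dec_mul (hS : Neg S) (n : ℤ) : extensionProduct (Dec S n) (Dec S n) ≤ Dec S n := by
  refine mul_mul env_mul_env env_mul_env (swap fun q p hq hp => ?_)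
  exact orth_lo_hi hS (show n < n + 1 + 1 by omega) hq (env_shift (fun q hq => hi_shift hq) hp)

theorem dec_shift {n m : ℤ} {X : C} (h : Dec S n X) : Dec S (n + m) (X⟦m⟧) := by
  obtain ⟨Y, Z, f, g, k, hT, hY, hZ⟩ := h
  refine ⟨_, _, _, _, _, Triangle.shift_distinguished _ hT m, env_shift (fun q hq => lo_shift hq) hY,
    env_shift (fun q hq => ?_) hZ⟩
  have h1 := hi_shift (m := m) hq
  rwa [show n + 1 + m = n + m + 1 by ring] at h1

/-- `M` has weight decompositions for all `n` -/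
def DecAll (S : ObjectProperty C) : ObjectProperty C := fun X => ∀ n, Dec S n X

theorem zero_env {Q : ObjectProperty C} {X : C} (h0 : IsZero X) (h : ∃ Y, Q Y ∧ IsZero Y) : Env Q X := by
  obtain ⟨Y, hY, hY0⟩ := h
  exact .iso _ _ (hY0.iso h0) (.of _ hY)

theorem exists_zero_lo (h0 : ∃ Y, S Y ∧ IsZero Y) (n : ℤ) : ∃ Y, lo S n Y ∧ IsZero Y := by
  obtain ⟨Y, hY, hY0⟩ := h0
  exact ⟨Y⟦n⟧, ⟨Y, n, hY, le_refl _, ⟨Iso.refl _⟩⟩, Functor.map_isZero _ hY0⟩

theorem exists_zero_hi (h0 : ∃ Y, S Y ∧ IsZero Y) (n : ℤ) : ∃ Y, hi S n Y ∧ IsZero Y := by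
  obtain ⟨Y, hY, hY0⟩ := h0
  exact ⟨Y⟦n⟧, ⟨Y, n, hY, le_refl _, ⟨Iso.refl _⟩⟩, Functor.map_isZero _ hY0⟩

theorem dec_of (h0 : ∃ Y, S Y ∧ IsZero Y) {X : C} (hX : S X) : DecAll S X := by
  intro n
  have e : X ≅ X⟦(0 : ℤ)⟧ := ((shiftFunctorZero C ℤ).app X).symm
  by_cases hn : 0 ≤ n
  · refine ⟨X, 0, 𝟙 X, 0, 0, contractible_distinguished X, ?_, ?_⟩
    · exact .of _ ⟨X, 0, hX, hn, ⟨e⟩⟩
    · exact zero_env (isZero_zero C) (exists_zero_hi h0 _)
  · refine ⟨_, X, _, _, _, inv_rot_of_distTriang _ (contractible_distinguished X), ?_, ?_⟩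
    · exact zero_env (Functor.map_isZero _ (isZero_zero C)) (exists_zero_lo h0 _)
    · exact .of _ ⟨X, 0, hX, by omega, ⟨e⟩⟩

/-- the thick subcategory generated by `S` consists of retracts of objects with weight decompositions -/
theorem envelope_le (hS : Neg S) (h0 : ∃ Y, S Y ∧ IsZero Y) :
    S.triangEnvelope ≤ (DecAll S).retractClosure := by
  have h1 : (DecAll S).ContainsZero := by
    obtain ⟨Y, hY, hY0⟩ := h0
    exact ⟨Y, hY0, dec_of ⟨Y, hY, hY0⟩ hY⟩
  have hsh : (DecAll S).IsStableUnderShift ℤ := by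
    refine ⟨fun m => ⟨fun X hX n => ?_⟩⟩
    have h2 := dec_shift (m := m) (hX (n - m))
    rwa [show n - m + m = n by ring] at h2
  have h2 : (DecAll S).retractClosure.ContainsZero := by
    obtain ⟨Y, hY0, hY⟩ := h1
    exact ⟨Y, hY0, le_retractClosure _ _ hY⟩
  have h3 : (DecAll S).retractClosure.IsTriangulatedClosed₂ := by
    refine IsTriangulatedClosed₂.mk' fun T hT h1 h3 => ?_
    have h4 := extensionProduct_retractClosure_retractClosure_le (DecAll S) (DecAll S) T.obj₂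
      ⟨_, _, _, _, _, hT, h1, h3⟩
    refine monotone_retractClosure ?_ _ h4
    intro X hX n
    obtain ⟨Y, Z, f, g, k, hT, hY, hZ⟩ := hX
    exact dec_mul hS n X ⟨Y, Z, f, g, k, hT, hY n, hZ n⟩
  have h5 : (DecAll S).retractClosure.IsTriangulated := { }
  rw [triangEnvelope_le_iff]
  intro X hX
  exact le_retractClosure _ _ (dec_of h0 hX)

/-- the objects of weight at most zero -/
theorem lo_le (hS : Neg S) (h0 : ∃ Y, S Y ∧ IsZero Y)
    (hsum : ∀ X Y Z : C, S X → S Y → (Z ≅ X ⊞ Y) → S Z) :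
    env (lo S 0) ≤ extensionProduct (env (lo S (-1))) S := by
  have hiso : ∀ X Y : C, (X ≅ Y) → S X → S Y := by
    intro X Y e hX
    obtain ⟨Z, hZ, hZ0⟩ := h0
    refine hsum X Z Y hX hZ (e.symm ≪≫ ?_)
    exact { hom := biprod.inl, inv := biprod.fst,
            inv_hom_id := by
              refine biprod.hom_ext' _ _ (by simp) (hZ0.eq_of_src _ _) }
  have hSS : extensionProduct S S ≤ S := by
    rintro X ⟨Y, Z, f, g, k, hT, hY, hZ⟩
    obtain ⟨e, -, -⟩ := exists_iso_binaryBiproduct_of_distTriang _ hT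
      (hS Z Y hZ hY 1 (by norm_num) k)
    exact hsum Y Z X hY hZ e
  have hmm : extensionProduct (extensionProduct (env (lo S (-1))) S)
      (extensionProduct (env (lo S (-1))) S) ≤ extensionProduct (env (lo S (-1))) S := by
    refine mul_mul env_mul_env hSS (swap fun q p hq hp => ?_)
    refine orth_env_left (fun q hq => ?_) hq
    obtain ⟨s, j, hs, hj, ⟨e⟩⟩ := hq
    exact (orth_shift (hS s p hs hp) (show j < 1 by omega)).iso_left e.symm
  intro X hX
  change Env _ X at hX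
  induction hX with
  | of Y hY =>
    obtain ⟨s, j, hs, hj, ⟨e⟩⟩ := hY
    by_cases hj0 : j = 0
    · subst hj0
      have e' : Y ≅ s := e ≪≫ (shiftFunctorZero C ℤ).app s
      refine ⟨_, Y, _, _, _, inv_rot_of_distTriang _ (contractible_distinguished Y), ?_, ?_⟩
      · exact zero_env (Functor.map_isZero _ (isZero_zero C)) (exists_zero_lo h0 _)
      · exact hiso _ _ e'.symm hs
    · obtain ⟨Z, hZ, hZ0⟩ := h0
      refine ⟨Y, 0, 𝟙 Y, 0, 0, contractible_distinguished Y, ?_, ?_⟩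
      · exact .of _ ⟨s, j, hs, by omega, ⟨e⟩⟩
      · exact hiso _ _ (hZ0.iso (isZero_zero C)) hZ
  | ext T hT _ _ h1 h3 => exact hmm _ ⟨_, _, _, _, _, hT, h1, h3⟩
  | iso Y Z e _ h1 => exact (extensionProduct (env (lo S (-1))) S).prop_of_iso e h1

/-- **Retracts.** A pure object of the thick subcategory generated by `S` is a retract of an object of `S`. -/
theorem exists_retract (hS : Neg S) (h0 : ∃ Y, S Y ∧ IsZero Y)
    (hsum : ∀ X Y Z : C, S X → S Y → (Z ≅ X ⊞ Y) → S Z) {X : C} (hX : S.triangEnvelope X)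
    (h1 : ∀ s, S s → ∀ i : ℤ, 0 < i → Orth X (s⟦i⟧))
    (h2 : ∀ s, S s → ∀ i : ℤ, 0 < i → Orth s (X⟦i⟧)) : ∃ s, S s ∧ Nonempty (Retract X s) := by
  obtain ⟨M, hM, ⟨r⟩⟩ := envelope_le hS h0 X hX
  obtain ⟨A, B, f, g, k, hT, hA, hB⟩ := hM 0
  -- `X → M` factors through `A`
  have h3 : Orth X B := by
    refine orth_env_right (fun q hq => ?_) hB
    obtain ⟨s, j, hs, hj, ⟨e⟩⟩ := hq
    exact (h1 s hs j (by omega)).iso_right e.symm
  obtain ⟨a, ha⟩ : ∃ a : X ⟶ A, r.i = a ≫ f := Triangle.coyoneda_exact₂ _ hT r.i (h3 _)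
  obtain ⟨A', s, f', g', k', hT', hA', hs⟩ := lo_le hS h0 hsum A hA
  -- `A → M → X` factors through `s`
  have h4 : Orth A' X := by
    refine orth_env_left (fun q hq => ?_) hA'
    obtain ⟨t, j, ht, hj, ⟨e⟩⟩ := hq
    have h5 : Orth (t⟦j⟧) (X⟦(0 : ℤ)⟧) := orth_shift (h2 t ht) (show j < 0 by omega)
    exact (h5.iso_right ((shiftFunctorZero C ℤ).app X)).iso_left e.symm
  obtain ⟨b, hb⟩ : ∃ b : s ⟶ X, f ≫ r.r = g' ≫ b := Triangle.yoneda_exact₂ _ hT' (f ≫ r.r) (h4 _)
  refine ⟨s, hs, ⟨⟨a ≫ g', b, ?_⟩⟩⟩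
  rw [Category.assoc, ← hb, ← Category.assoc, ← ha, r.retract]

end

end Pool.Agent.E8helper74.FC
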